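import Pool.Agent.X297.LO.Stm

/-!
# The upper bound for the solutions of `a - b + c = k` in an interval
-/

set_option autoImplicit false

namespace Pool.Agent.X296.LO

/-- the number of `c` for given `a` -/
def g (m : ℕ) (k : ℤ) (a : ℕ) : ℕ :=
  (min (2 * (m : ℤ)) (k - a + 2 * m) - max 0 (k - a)).toNat

lemma card_c (m : ℕ) (k : ℤ) (a : ℕ) :
    ((Finset.range (2 * m)).filter (fun c : ℕ => k ≤ (a : ℤ) + c ∧ (a : ℤ) + c < k + 2 * m)).card ≤
      g m k a := by
  rw [g, ← Int.card_Ico]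
  refine Finset.card_le_card_of_injOn (fun c : ℕ => (c : ℤ)) ?_ ?_
  · intro c hc
    rw [Finset.mem_coe, Finset.mem_filter, Finset.mem_range] at hc
    rw [Finset.mem_coe, Finset.mem_Ico]
    obtain ⟨h1, h2, h3⟩ := hc
    constructor
    · simp only [max_le_iff]
      omega
    · simp only [lt_min_iff]
      omega
  · intro c _ c' _ h
    exact Int.ofNat.inj h

lemma pair_le (m : ℕ) (k : ℤ) (j : ℕ) (hj : j < m) :
    g m k j + g m k (m + (m - 1 - j)) ≤ 2 * m + 1 + 2 * j := by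
  unfold g
  omega

lemma sum_g (m : ℕ) (k : ℤ) : ∑ a ∈ Finset.range (2 * m), g m k a ≤ 3 * m ^ 2 := by
  have h1 : ∑ a ∈ Finset.range (2 * m), g m k a =
      ∑ j ∈ Finset.range m, (g m k j + g m k (m + (m - 1 - j))) := by
    rw [two_mul, Finset.sum_range_add, Finset.sum_add_distrib,
      Finset.sum_range_reflect (fun j => g m k (m + j)) m]
  rw [h1]
  refine (Finset.sum_le_sum fun j hj => pair_le m k j (Finset.mem_range.1 hj)).trans ?_
  have h2 : ∀ n M : ℕ, ∑ j ∈ Finset.range n, (2 * M + 1 + 2 * j) = n * (2 * M) + n * n := by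
    intro n M
    induction n with
    | zero => simp
    | succ n ih => rw [Finset.sum_range_succ, ih]; ring
  rw [h2]
  exact le_of_eq (by ring)

theorem t_ZUP : Pool.Agent.X297.LO.S_ZUP := by
  intro m k
  classical
  set S := ((Finset.range (2 * m)) ×ˢ (Finset.range (2 * m))).filter
    (fun q : ℕ × ℕ => k ≤ (q.1 : ℤ) + q.2 ∧ (q.1 : ℤ) + q.2 < k + 2 * m) with hS
  have h1 : S.card ≤ 3 * m ^ 2 := by
    refine le_trans ?_ (sum_g m k)
    rw [hS, Finset.card_filter, Finset.sum_product]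
    refine Finset.sum_le_sum fun a _ => ?_
    refine le_trans (le_of_eq ?_) (card_c m k a)
    rw [Finset.card_filter]
  refine le_trans ?_ h1
  rw [← Nat.card_eq_finsetCard]
  refine Nat.card_le_card_of_injective (β := S)
    (fun p => ⟨((p.1.1 : ℕ), (p.1.2.2 : ℕ)), ?_⟩) ?_
  · have hp := p.2
    have h2 := p.1.1.2
    have h3 := p.1.2.1.2
    have h4 := p.1.2.2.2
    rw [hS, Finset.mem_filter, Finset.mem_product, Finset.mem_range, Finset.mem_range]
    refine ⟨⟨h2, h4⟩, ?_, ?_⟩ <;> dsimp only <;> omega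
  · rintro ⟨⟨a, b, c⟩, h⟩ ⟨⟨a', b', c'⟩, h'⟩ heq
    simp only [Subtype.mk.injEq, Prod.mk.injEq] at heq h h' ⊢
    have e1 : a = a' := Fin.ext heq.1
    have e2 : c = c' := Fin.ext heq.2
    subst e1 e2
    refine ⟨rfl, Fin.ext ?_, rfl⟩
    omega

end Pool.Agent.X296.LO
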